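import Pool.Agent.N658.FF.Stm3

/-! # Frustration-free Hamiltonians: two scales (project FF2 of helper658) -/

set_option autoImplicit false

open scoped BigOperators InnerProductSpace Classical

namespace Pool.Agent.N82.FF

open Pool.Agent.N658.FF

section
variable {E : Type} [NormedAddCommGroup E] [InnerProductSpace ℂ E] [FiniteDimensional ℂ E]
variable {T : Type}

lemma G_anti (V : T → Submodule ℂ E) {A B : Finset T} (h : A ⊆ B) : G V B ≤ G V A :=
  biInf_mono fun _ hx => h hx

lemma G_empty (V : T → Submodule ℂ E) : G V ∅ = ⊤ := by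
  simp [G]

end

/-- Two scales. -/
theorem two (h1 : StmLevel) (h2 : StmLow) : StmTwo := by
  intro g ν Δ Γ hΔ
  obtain ⟨C, ρ, hC1, hρ0, hρ1, hlev⟩ := h1 g ν Δ Γ hΔ
  refine ⟨C, ρ, hC1, hρ0, hρ1, ?_⟩
  intro E _ _ _ T ι κ _ _ _ _ _ _ V adj hLoc hGap hGrow X near K M hX hcov hnear hν hdisj
    Y near' K' M' hY hcovY hdY hnear' hν' hdisj' S θ hS n n' hn hn' δ hδ
  choose Lam hL1 hL2 hL3 using fun A : Finset T => h2 E T V (G V A) (n : ℝ) (Nat.cast_nonneg n)
  have hC0 : 0 ≤ C := by linarith
  have key : ∀ F : Finset ι, F.card < n →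
      Module.finrank ℂ (Lam (∅ ∪ (Finset.univ \ F).biUnion X)) ≤ (n * M + 1) ^ n' * δ := by
    intro F hF
    set A : Finset T := ∅ ∪ (Finset.univ \ F).biUnion X with hA
    set I' : Finset κ := Finset.univ.filter (fun y => ¬ Disjoint (Y y) (F.biUnion X)) with hI'
    have hcard : I'.card ≤ n * M := by
      have h3 : (F.biUnion X).card ≤ n * M := by
        refine (Finset.card_biUnion_le_card_mul F X M fun t _ => hX t).trans ?_
        exact Nat.mul_le_mul_right M hF.le
      refine le_trans ?_ h3
      have h4 : ∀ y : {y // y ∈ I'}, ∃ x, x ∈ Y y.1 ∧ x ∈ F.biUnion X := by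
        intro y
        exact Finset.not_disjoint_iff.1 (Finset.mem_filter.1 y.2).2
      choose f hf1 hf2 using h4
      have h6 := Fintype.card_le_of_injective
        (fun y : {y // y ∈ I'} => (⟨f y, hf2 y⟩ : {x // x ∈ F.biUnion X})) (by
          intro y y' he
          by_contra hne
          have h5 := hdY y.1 y'.1 (fun h => hne (Subtype.ext h))
          rw [Finset.disjoint_left] at h5
          apply h5 (hf1 y)
          have h7 : f y = f y' := congrArg Subtype.val he
          rw [h7]
          exact hf1 y')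
      rwa [Fintype.card_coe, Fintype.card_coe] at h6
    have hcond : C * (n : ℝ) + I'.card * (C * M' * ρ ^ K') < n' := by
      refine lt_of_le_of_lt ?_ hn'
      have h6 : (I'.card : ℝ) ≤ ((n * M : ℕ) : ℝ) := by exact_mod_cast hcard
      have h7 : 0 ≤ C * M' * ρ ^ K' := by positivity
      have := mul_le_mul_of_nonneg_right h6 h7
      linarith
    have hres := hlev E T κ V adj hLoc hGap hGrow Y near' K' M' hY hnear' hν' hdisj' I' A
      (Lam A) (n : ℝ) (hL1 A) (hL2 A) n' hcond (G V) (by
        intro B u hu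
        have h8 : pr (G V B) u = u := Submodule.starProjection_eq_self_iff.2 hu
        rw [h8, sub_self, mul_zero]
        exact Finset.sum_nonneg fun x _ => sq_nonneg _) δ (by
        intro F' hF'
        refine le_trans (Submodule.finrank_mono (G_anti V ?_)) (hδ F' hF')
        intro x hx
        rw [Finset.mem_sdiff] at hx
        obtain ⟨y, hy⟩ := hcovY x
        have hyF : y ∉ F' := fun h => hx.2 (Finset.mem_biUnion.2 ⟨y, h, hy⟩)
        rw [Finset.mem_union]
        by_cases hyI : y ∈ I'
        · right
          exact Finset.mem_biUnion.2 ⟨y, Finset.mem_sdiff.2 ⟨hyI, hyF⟩, hy⟩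
        · left
          rw [hI', Finset.mem_filter] at hyI
          have h9 : Disjoint (Y y) (F.biUnion X) := by
            by_contra hc
            exact hyI ⟨Finset.mem_univ y, hc⟩
          obtain ⟨t, ht⟩ := hcov x
          have htF : t ∉ F := fun h =>
            (Finset.disjoint_left.1 h9 hy) (Finset.mem_biUnion.2 ⟨t, h, ht⟩)
          rw [hA, Finset.mem_union]
          right
          exact Finset.mem_biUnion.2 ⟨t, Finset.mem_sdiff.2 ⟨Finset.mem_univ t, htF⟩, ht⟩)
    refine hres.trans (Nat.mul_le_mul_right δ ?_)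
    exact Nat.pow_le_pow_left (by omega) n'
  have hfin := hlev E T ι V adj hLoc hGap hGrow X near K M hX hnear hν hdisj Finset.univ ∅ S θ
    (by rw [G_empty]; exact le_top) hS n (by rw [Finset.card_univ]; exact hn) Lam hL3
    ((n * M + 1) ^ n' * δ) key
  rw [Finset.card_univ] at hfin
  exact hfin

end Pool.Agent.N82.FF
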